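import Pool.Agent.L7h7.GJ.Stm

/-! Project GJ, part ASM: the bound for a configuration in a closed ball, from LOC, GEO and CNT. -/

set_option autoImplicit false

namespace Pool.Agent.L7h24.GJ

open Pool.Agent.L7h7.GJ

theorem adm_tail {d : ℕ} {i : Fin (d + 1)} {ν : Wd d} (h : Adm (i :: ν)) : Adm ν := by
  cases ν with
  | nil => trivial
  | cons j ν' => exact h.2

theorem sx_mem {d k : ℕ} : ∀ (ν : Wd d), Adm ν → ν.length ≤ k → ∀ m, sx ν m ∈ Lk d k
  | [], _, _, m => Or.inl ⟨m, rfl⟩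
  | (i :: ν), h, hk, m => by
    by_cases hm : m = i
    · subst hm
      refine Or.inr ⟨m :: ν, ⟨List.cons_ne_nil _ _, h, hk⟩, ?_⟩
      simp [sx]
    · have h1 := sx_mem ν (adm_tail h) (Nat.le_of_succ_le hk) m
      simpa [sx, Function.update_of_ne hm] using h1

theorem s_ASM : S_ASM := by
  intro hL hG hC d k q c r T hd hr hE hcv hball hTL hTs
  obtain ⟨bc, dir, h⟩ := hG d k q hd hE hcv
  refine hC d k T dir hTL ?_ ?_ ?_
  · intro ν hν hk i mu hadm hlen
    exact (h ν hν hk).2.2.2.1 i mu hadm hlen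
  · intro ν hν hk i ν' e x hx hx1 hx2
    exact (h ν hν hk).2.2.2.2 i ν' e x (hTL hx) hx1 hx2
  · intro ν hν hk t ht hrg hinj
    obtain ⟨h1, h2, h3, -, -⟩ := h ν hν hk
    refine hL d (d + 1) (fun m => q (sx ν m)) c r (fun a => dir ν (t a)) (fun a => q (t a))
      (fun a => bc ν (t a)) hr hinj (fun m => hball _ (sx_mem ν hν hk m)) (fun a => hTs _ (ht a))
      (fun a => (h1 _ (hTL (ht a))).1) (fun a => (h1 _ (hTL (ht a))).2)
      (fun a => (h2 _ (hTL (ht a)) (hrg a)).1) (fun a => (h2 _ (hTL (ht a)) (hrg a)).2)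
      (fun a b hab => h3 _ (hTL (ht a)) _ (hTL (ht b)) (hrg a) (hrg b) (fun e => hab (hinj e)))
      (fun a e => ?_)
    refine hcv (t a) (hTL (ht a)) ?_
    change q (t a) = q (sx ν (dir ν (t a))) at e
    rw [e]
    refine subset_convexHull ℝ _ ⟨sx ν (dir ν (t a)), ⟨sx_mem ν hν hk _, ?_⟩, rfl⟩
    intro e2
    exact hrg a ⟨_, e2⟩

end Pool.Agent.L7h24.GJ
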