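import Pool.Agent.L7h24.GJ.Asm

/-! Project GJ, part SIND: the base simplex and the induction. -/

set_option autoImplicit false

namespace Pool.Agent.L7h24.GJ

open Pool.Agent.L7h7.GJ

theorem expo_of_affine {d : ℕ} {ι : Type} {q : ι → E d} {L A : Set ι} (g : E d →ᵃ[ℝ] ℝ)
    (h1 : ∀ x ∈ A, g (q x) = 0) (h2 : ∀ x ∈ L, x ∉ A → g (q x) < 0) : Expo q L A := by
  refine ⟨LinearMap.toContinuousLinearMap g.linear, - g 0, fun x hx => ?_, fun x hx hxA => ?_⟩
  · have e : g.linear (q x) = g (q x) - g 0 := by
      have := congrFun g.decomp' (q x)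
      simpa using this
    simp [e, h1 x hx]
  · have e : g.linear (q x) = g (q x) - g 0 := by
      have := congrFun g.decomp' (q x)
      simpa using this
    have := h2 x hx hxA
    simp only [LinearMap.coe_toContinuousLinearMap', e]
    linarith

open Classical in
theorem base_expo {d : ℕ} (b : AffineBasis (Fin (d + 1)) ℝ (E d)) {p : Lab d → E d}
    (hp : ∀ i, p (Sum.inl i) = b i) (B : Set (Fin (d + 1))) :
    Expo p (LS (∅ : Set (Wd d))) (Sum.inl '' B) := by
  have key : ∀ (s : Finset (Fin (d + 1))) (i : Fin (d + 1)),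
      (-(∑ j ∈ s, b.coord j)) (b i) = if i ∈ s then -1 else 0 := by
    intro s i
    have e : (∑ j ∈ s, b.coord j) (b i) = ∑ j ∈ s, b.coord j (b i) := by
      induction s using Finset.induction_on with
      | empty => simp
      | insert a s ha ih => rw [Finset.sum_insert ha, Finset.sum_insert ha, ← ih]; rfl
    have e2 : (-(∑ j ∈ s, b.coord j)) (b i) = -((∑ j ∈ s, b.coord j) (b i)) := rfl
    rw [e2, e]
    simp only [AffineBasis.coord_apply]
    split_ifs with h
    · simp [h]
    · simp [h]
  refine expo_of_affine (-(∑ j ∈ (Finset.univ.filter fun j => j ∉ B), b.coord j)) ?_ ?_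
  · rintro x ⟨i, hi, rfl⟩
    rw [hp, key, if_neg (by simp [hi])]
  · rintro x hx hxA
    rcases hx with ⟨i, rfl⟩ | ⟨w, hw, rfl⟩
    · have hi : i ∉ B := fun h => hxA ⟨i, h, rfl⟩
      rw [hp, key, if_pos (by simp [hi])]
      norm_num
    · exact absurd hw (Set.notMem_empty w)

theorem base (d : ℕ) : ∃ p : Lab d → E d, Inv (∅ : Set (Wd d)) p := by
  obtain ⟨b⟩ : Nonempty (AffineBasis (Fin (d + 1)) ℝ (E d)) :=
    AffineBasis.exists_affineBasis_of_finiteDimensional (by simp)
  refine ⟨Sum.elim b (fun _ => 0), ?_, ?_, ?_, ?_⟩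
  · intro A hA _
    have hA' : ∀ x : A, ∃ i, (x : Lab d) = Sum.inl i := by
      intro x
      rcases hA x.2 with h | ⟨w, hw, -⟩
      · exact h
      · exact absurd hw (Set.notMem_empty w)
    choose e he using hA'
    have hinj : Function.Injective e := by
      intro x y hxy
      apply Subtype.ext
      rw [he x, he y, hxy]
    have h1 := b.ind.comp_embedding ⟨e, hinj⟩
    have h2 : (fun x : A => (Sum.elim b (fun _ => 0) : Lab d → E d) x) = b ∘ e := by
      funext x
      rw [he x]
      rfl
    rw [h2]
    exact h1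
  · intro x hx
    rcases hx with ⟨i, rfl⟩ | ⟨w, hw, -⟩
    · have := base_expo b (p := Sum.elim b (fun _ => 0)) (fun _ => rfl) {i}
      rwa [Set.image_singleton] at this
    · exact absurd hw (Set.notMem_empty w)
  · intro ν hν i j _
    rcases hν with rfl | h
    · exact base_expo b (p := Sum.elim b (fun _ => 0)) (fun _ => rfl) _
    · exact absurd h (Set.notMem_empty ν)
  · intro ν hν i _ _
    rcases hν with rfl | h
    · exact base_expo b (p := Sum.elim b (fun _ => 0)) (fun _ => rfl) _
    · exact absurd h (Set.notMem_empty ν)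

theorem wk_finite (d k : ℕ) : (Wk d k).Finite :=
  (List.finite_length_le (Fin (d + 1)) k).subset fun _ h => h.2.2

theorem s_SIND : S_SIND := by
  intro hstep d k hd
  have main : ∀ n : ℕ, ∀ S : Set (Wd d), S.Finite → S.ncard = n → (∀ w ∈ S, w ≠ [] ∧ Adm w) →
      (∀ a w, (a :: w) ∈ S → w = [] ∨ w ∈ S) → ∃ p : Lab d → E d, Inv S p := by
    intro n
    induction n with
    | zero =>
      intro S hf hc _ _
      rw [Set.ncard_eq_zero hf] at hc
      subst hc
      exact base d
    | succ n ih =>
      intro S hf hc h1 h2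
      have hne : S.Nonempty := by
        rw [Set.nonempty_iff_ne_empty]
        rintro rfl
        simp at hc
      obtain ⟨w, hw, hmax⟩ := Set.exists_max_image S List.length hf hne
      obtain ⟨i, ν, rfl⟩ : ∃ i ν, w = i :: ν := by
        cases w with
        | nil => exact absurd rfl (h1 _ hw).1
        | cons i ν => exact ⟨i, ν, rfl⟩
      have h3 : ∀ a u, (a :: u) ∈ S → u ≠ i :: ν := by
        intro a u hu e
        have := hmax _ hu
        rw [e] at this
        simp at this
      obtain ⟨p, hp⟩ := ih (S \ {i :: ν}) (hf.subset Set.diff_subset)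
        (by rw [Set.ncard_diff_singleton_of_mem hw, hc]; rfl)
        (fun u hu => h1 u hu.1)
        (fun a u hu => by
          rcases h2 a u hu.1 with h | h
          · exact Or.inl h
          · exact Or.inr ⟨h, h3 a u hu.1⟩)
      obtain ⟨p', hp'⟩ := hstep d (S \ {i :: ν}) p i ν hd (hf.subset Set.diff_subset)
        (fun u hu => h1 u hu.1)
        (fun a u hu => by
          rcases h2 a u hu.1 with h | h
          · exact Or.inl h
          · exact Or.inr ⟨h, h3 a u hu.1⟩)
        (by
          rcases h2 i ν hw with h | h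
          · exact Or.inl h
          · exact Or.inr ⟨h, h3 i ν hw⟩)
        (h1 _ hw).2 (fun h => h.2 rfl) hp
      refine ⟨p', ?_⟩
      rwa [Set.insert_diff_singleton, Set.insert_eq_of_mem hw] at hp'
  refine main _ (Wk d k) (wk_finite d k) rfl (fun w hw => ⟨hw.1, hw.2.1⟩) ?_
  intro a w hw
  by_cases h : w = []
  · exact Or.inl h
  · refine Or.inr ⟨h, adm_tail hw.2.1, ?_⟩
    have := hw.2.2
    simp at this
    omega

end Pool.Agent.L7h24.GJ
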